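import Pool.Agent.Helper16.SD.GoalsS

/-!
# Project SD, packet ST_PAIR: the pairing
-/

set_option autoImplicit false

namespace Pool.Agent.Helper24.SD.ST_PAIR

open Module Pool.Agent.Helper16.SD

/-- A linear functional in coordinates. -/
theorem fun_eq_sum {E I : Type} [Field E] [Fintype I] [DecidableEq I] (φ : (I → E) →ₗ[E] E)
    (x : I → E) : φ x = ∑ i, x i * φ (Pi.single i 1) := by
  have h := LinearMap.pi_apply_eq_sum_univ φ x
  rw [h]
  refine Finset.sum_congr rfl fun i _ => ?_
  rw [smul_eq_mul]
  congr 2
  funext j
  by_cases hj : i = j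
  · subst hj
    simp
  · rw [if_neg hj, Pi.single_eq_of_ne (Ne.symm hj)]

/-- Linear independence is preserved by a homomorphism of fields. -/
theorem indep {E I : Type} [Field E] [Fintype I] [DecidableEq I] (ε : E →+* ℂ)
    (P : Submodule E (I → E)) {n : ℕ} (b : Basis (Fin n) E P) (z : Fin n → ℂ)
    (h : ∀ i, ∑ j, z j * ε ((b j : I → E) i) = 0) : z = 0 := by
  funext k
  obtain ⟨φ, hφ⟩ := LinearMap.exists_extend (b.coord k)
  have h1 : ∀ j, ε (φ (b j : I → E)) = if j = k then 1 else 0 := by
    intro j
    have h2 : φ (b j : I → E) = b.coord k (b j) := by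
      rw [← hφ]
      rfl
    rw [h2, Basis.coord_apply, Basis.repr_self, Finsupp.single_apply]
    by_cases hj : j = k
    · rw [if_pos hj, if_pos hj, map_one]
    · rw [if_neg hj, if_neg hj, map_zero]
  have h3 : ∑ i, ε (φ (Pi.single i 1)) * ∑ j, z j * ε ((b j : I → E) i) = z k := by
    have h4 : ∀ i, ε (φ (Pi.single i 1)) * ∑ j, z j * ε ((b j : I → E) i) =
        ∑ j, z j * ε ((b j : I → E) i * φ (Pi.single i 1)) := by
      intro i
      rw [Finset.mul_sum]
      refine Finset.sum_congr rfl fun j _ => ?_
      rw [map_mul]
      ring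
    simp only [h4]
    rw [Finset.sum_comm]
    have h5 : ∀ j, ∑ i, z j * ε ((b j : I → E) i * φ (Pi.single i 1)) =
        z j * if j = k then 1 else 0 := by
      intro j
      rw [← Finset.mul_sum, ← map_sum, ← fun_eq_sum, h1]
    simp only [h5, mul_ite, mul_one, mul_zero, Finset.sum_ite_eq', Finset.mem_univ, if_true]
  rw [← h3]
  simp only [h, mul_zero, Finset.sum_const_zero, Pi.zero_apply]

theorem t : Pool.Agent.Helper16.SD.ST_PAIR := by
  intro E I Γ _ _ _ _ _ _ m c hc ε d α hα V
  classical
  set P : Submodule E (I → E) := V ⊓ fixL (rho m c) with hP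
  set n : ℕ := finrank E P with hn
  let b : Basis (Fin n) E P := Module.finBasis E P
  letI : Algebra E ℂ := ε.toAlgebra
  have hsm : ∀ (e : E) (y : ℂ), e • y = ε e * y := fun e y => Algebra.smul_def e y
  let T : (Fin d → E) →ₗ[E] (Fin n → ℂ) :=
    { toFun := fun x j => ∑ r, ∑ i, ε (x r) * ε ((b j : I → E) i) * α r i
      map_add' := by
        intro x y
        funext j
        simp only [Pi.add_apply, map_add, add_mul, Finset.sum_add_distrib]
      map_smul' := by
        intro e x
        funext j
        simp only [Pi.smul_apply, smul_eq_mul, map_mul, mul_assoc, ← Finset.mul_sum,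
          RingHom.id_apply, hsm] }
  have hT : ∀ x j, T x j = ∑ r, ∑ i, ε (x r) * ε ((b j : I → E) i) * α r i := fun _ _ => rfl
  have h1 : annA ε α (V : Set (I → E)) ≤ LinearMap.ker T := by
    intro x hx
    rw [LinearMap.mem_ker]
    funext j
    rw [hT]
    exact hx _ (b j).2.1
  have hfix : ∀ j i, (b j : I → E) i = (m c (c • i) : Eˣ) * (b j : I → E) (c • i) := by
    intro j i
    have h2 : (b j : I → E) ∈ fixL (rho m c) := (b j).2.2
    have h3 : rho m c (b j : I → E) - (b j : I → E) = 0 := h2
    have h4 := congrFun (sub_eq_zero.1 h3) i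
    have h5 : rho m c (b j : I → E) i = (m c (c⁻¹ • i) : Eˣ) * (b j : I → E) (c⁻¹ • i) := rfl
    have h6 : c⁻¹ = c := inv_eq_of_mul_eq_one_left hc
    rw [h5, h6] at h4
    exact h4.symm
  have h2 : n ≤ finrank E (LinearMap.range T) := by
    let b' := Module.finBasis E (LinearMap.range T)
    set k := finrank E (LinearMap.range T) with hk
    let u : Fin k → (Fin n → ℂ) := fun j => (b' j : Fin n → ℂ)
    have hspan : Submodule.span ℂ (Set.range u) = ⊤ := by
      by_contra hne
      obtain ⟨f, hf0, hf⟩ := Submodule.exists_le_ker_of_lt_top _ (lt_top_iff_ne_top.2 hne)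
      have hfu : ∀ j, f (u j) = 0 := fun j =>
        LinearMap.mem_ker.1 (hf (Submodule.subset_span ⟨j, rfl⟩))
      have hfT : ∀ x, f (T x) = 0 := by
        intro x
        have h3 : T x = ∑ j, (b'.repr ⟨T x, LinearMap.mem_range_self T x⟩ j) • u j := by
          have h4 := congrArg Subtype.val
            (b'.sum_repr ⟨T x, LinearMap.mem_range_self T x⟩)
          rw [Submodule.coe_sum] at h4
          exact h4.symm
        rw [h3, map_sum]
        refine Finset.sum_eq_zero fun j _ => ?_
        rw [← algebraMap_smul ℂ, map_smul, hfu, smul_zero]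
      apply hf0
      set z : Fin n → ℂ := fun j => f (Pi.single j 1) with hz
      have hfz : ∀ y : Fin n → ℂ, f y = ∑ j, y j * z j := fun_eq_sum f
      have hz0 : z = 0 := by
        refine indep ε P b z ?_
        set w : I → ℂ := fun i => ∑ j, z j * ε ((b j : I → E) i) with hw
        have hw1 : ∀ r, ∑ i, w i * α r i = 0 := by
          intro r
          have h3 := hfT (Pi.single r 1)
          rw [hfz] at h3
          rw [← h3]
          have h4 : ∀ j, T (Pi.single r 1) j = ∑ i, ε ((b j : I → E) i) * α r i := by
            intro j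
            rw [hT, Finset.sum_eq_single r]
            · simp
            · intro r' _ hr'
              rw [Pi.single_eq_of_ne hr']
              simp
            · intro h
              exact absurd (Finset.mem_univ _) h
          simp only [h4, hw, Finset.sum_mul]
          rw [Finset.sum_comm]
          refine Finset.sum_congr rfl fun j _ => Finset.sum_congr rfl fun i _ => ?_
          ring
        have hw2 := hα w hw1
        have hw3 : ∀ i, w i = ε (m c (c • i) : Eˣ) * w (c • i) := by
          intro i
          simp only [hw, Finset.mul_sum]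
          refine Finset.sum_congr rfl fun j _ => ?_
          rw [hfix j i, map_mul]
          ring
        intro i
        have h5 := hw2 i
        rw [← hw3 i] at h5
        have h6 : (2 : ℂ) * w i = 0 := by linear_combination h5
        rcases mul_eq_zero.1 h6 with h7 | h7
        · exact absurd h7 two_ne_zero
        · exact h7
      apply LinearMap.ext
      intro y
      rw [hfz, hz0]
      simp
    have h3 : (Set.range u).finrank ℂ ≤ Fintype.card (Fin k) := finrank_range_le_card u
    rw [Set.finrank, hspan, finrank_top, Module.finrank_fin_fun, Fintype.card_fin] at h3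
    exact h3
  have h3 := LinearMap.finrank_range_add_finrank_ker T
  rw [Module.finrank_fin_fun] at h3
  have h4 : finrank E (annA ε α (V : Set (I → E))) ≤ finrank E (LinearMap.ker T) :=
    Submodule.finrank_mono h1
  omega

end Pool.Agent.Helper24.SD.ST_PAIR
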