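import Pool.Agent.Helper16.SD.GoalsN
import Pool.Agent.Helper44.SD.ST_HALF

/-!
# Project SD, goal N_HALF: the plus part is half of a stable subspace

The trace of `ρ(c)` on `V` is zero: it is the sum of the traces of `P_i ρ(c)`, and conjugation by `ρ(g)` multiplies
`P_i ρ(c)` by a scalar different from `1`.
-/

set_option autoImplicit false

namespace Pool.Agent.Helper24.SD.N_HALF

open Module Pool.Agent.Helper16.SD
open Pool.Agent.Helper44.SD.ST_HALF (coc_one rho_mul rho_one rho_diag)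

variable {E I Γ : Type} [Field E] [Group Γ] [MulAction Γ I]

/-- `j` is in the class of `i`: the elements which act trivially have the same scalars at `i` and `j`. -/
def Cl (m : Γ → I → Eˣ) (i j : I) : Prop := ∀ n : Γ, (∀ k : I, n • k = k) → m n j = m n i

open Classical in
/-- The coordinate projection onto the class of `i`. -/
noncomputable def P (m : Γ → I → Eˣ) (i : I) : (I → E) →ₗ[E] (I → E) where
  toFun v k := if Cl m i k then v k else 0
  map_add' v w := by
    funext k
    change (if Cl m i k then v k + w k else 0) =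
      (if Cl m i k then v k else 0) + (if Cl m i k then w k else 0)
    by_cases h : Cl m i k
    · rw [if_pos h, if_pos h, if_pos h]
    · rw [if_neg h, if_neg h, if_neg h, add_zero]
  map_smul' r v := by
    funext k
    change (if Cl m i k then r * v k else 0) = r * (if Cl m i k then v k else 0)
    by_cases h : Cl m i k
    · rw [if_pos h, if_pos h]
    · rw [if_neg h, if_neg h, mul_zero]

theorem P_pos (m : Γ → I → Eˣ) (i : I) (v : I → E) (k : I) (h : Cl m i k) : P m i v k = v k :=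
  if_pos h

theorem P_neg (m : Γ → I → Eˣ) (i : I) (v : I → E) (k : I) (h : ¬ Cl m i k) : P m i v k = 0 :=
  if_neg h

theorem P_mem [Finite I] (m : Γ → I → Eˣ) (V : Submodule E (I → E))
    (hV : ∀ γ, ∀ v ∈ V, rho m γ v ∈ V) (i : I) (v : I → E) (hv : v ∈ V) : P m i v ∈ V := by
  classical
  have := Fintype.ofFinite I
  have key : ∀ S : Finset I, (∀ j ∈ S, ¬ Cl m i j) →
      ∃ w ∈ V, (∀ k, Cl m i k → w k = v k) ∧ ∀ k ∈ S, w k = 0 := by
    intro S
    induction S using Finset.induction_on with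
    | empty => exact fun _ ↦ ⟨v, hv, fun _ _ ↦ rfl, fun k hk ↦ absurd hk (Finset.notMem_empty k)⟩
    | insert j S hj ih =>
      intro hS
      obtain ⟨w, hw, h1, h2⟩ := ih fun k hk ↦ hS k (Finset.mem_insert_of_mem hk)
      have h3 := hS j (Finset.mem_insert_self j S)
      unfold Cl at h3
      push Not at h3
      obtain ⟨n, hn, hne⟩ := h3
      have h4 : ((m n i : Eˣ) : E) - (m n j : Eˣ) ≠ 0 := by
        intro h
        exact hne (Units.ext (sub_eq_zero.mp h)).symm
      refine ⟨(((m n i : Eˣ) : E) - (m n j : Eˣ))⁻¹ • (rho m n w - ((m n j : Eˣ) : E) • w),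
        V.smul_mem _ (V.sub_mem (hV n w hw) (V.smul_mem _ hw)), ?_, ?_⟩
      · intro k hk
        rw [Pi.smul_apply, Pi.sub_apply, Pi.smul_apply, rho_diag n hn, hk n hn, smul_eq_mul,
          smul_eq_mul, ← sub_mul, ← mul_assoc, inv_mul_cancel₀ h4, one_mul, h1 k hk]
      · intro k hk
        rw [Pi.smul_apply, Pi.sub_apply, Pi.smul_apply, rho_diag n hn, smul_eq_mul, smul_eq_mul]
        rcases Finset.mem_insert.mp hk with rfl | hk
        · rw [sub_self, mul_zero]
        · rw [h2 k hk, mul_zero, mul_zero, sub_self, mul_zero]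
  obtain ⟨w, hw, h1, h2⟩ := key (Finset.univ.filter fun j ↦ ¬ Cl m i j) fun j hj ↦
    (Finset.mem_filter.mp hj).2
  have h3 : P m i v = w := by
    funext k
    by_cases h : Cl m i k
    · rw [P_pos m i v k h, h1 k h]
    · rw [P_neg m i v k h, h2 k (Finset.mem_filter.mpr ⟨Finset.mem_univ k, h⟩)]
  rw [h3]
  exact hw

theorem conj_coc {m : Γ → I → Eˣ} (hm : IsCoc m) (g n : Γ) (hn : ∀ k : I, n • k = k) (j : I) :
    m n (g • j) = m (g⁻¹ * n * g) j := by
  have h1 := hm n g j
  have h2 := hm g (g⁻¹ * n * g) j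
  have h3 : g * (g⁻¹ * n * g) = n * g := by group
  have h4 : (g⁻¹ * n * g) • j = j := by
    rw [mul_smul, mul_smul, hn, inv_smul_smul]
  rw [h3, h4, h1, mul_comm (m g j)] at h2
  exact mul_right_cancel h2

theorem Cl_smul {m : Γ → I → Eˣ} (hm : IsCoc m) (g : Γ) (i j : I) (h : Cl m i j) :
    Cl m (g • i) (g • j) := by
  intro n hn
  rw [conj_coc hm g n hn, conj_coc hm g n hn]
  refine h _ fun k ↦ ?_
  rw [mul_smul, mul_smul, hn, inv_smul_smul]

theorem P_rho {m : Γ → I → Eˣ} (hm : IsCoc m) (g : Γ) (i : I) (hi : g • i = i) (v : I → E) :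
    P m i (rho m g v) = rho m g (P m i v) := by
  funext k
  have hgi : g⁻¹ • i = i := by rw [inv_smul_eq_iff, hi]
  change _ = ((m g (g⁻¹ • k) : Eˣ) : E) * P m i v (g⁻¹ • k)
  by_cases h : Cl m i k
  · have h1 : Cl m i (g⁻¹ • k) := by
      have := Cl_smul hm g⁻¹ i k h
      rwa [hgi] at this
    rw [P_pos m i _ k h, P_pos m i _ _ h1]
    rfl
  · have h1 : ¬ Cl m i (g⁻¹ • k) := by
      intro h2
      have := Cl_smul hm g i _ h2
      rw [hi, smul_inv_smul] at this
      exact h this
    rw [P_neg m i _ k h, P_neg m i _ _ h1, mul_zero]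

theorem P_rho_triv {m : Γ → I → Eˣ} (z : Γ) (hz : ∀ k : I, z • k = k) (i : I) (v : I → E) :
    P m i (rho m z v) = ((m z i : Eˣ) : E) • P m i v := by
  funext k
  rw [Pi.smul_apply, smul_eq_mul]
  by_cases h : Cl m i k
  · rw [P_pos m i _ k h, P_pos m i _ k h, rho_diag z hz, h z hz]
  · rw [P_neg m i _ k h, P_neg m i _ k h, mul_zero]

open Classical in
theorem sum_P [CharZero E] [Fintype I] (m : Γ → I → Eˣ) (v : I → E) :
    ∑ i, (((Finset.univ.filter fun j ↦ Cl m i j).card : E))⁻¹ • P m i v = v := by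
  funext k
  rw [Finset.sum_apply]
  have hsymm : ∀ i, Cl m i k → (Finset.univ.filter fun j ↦ Cl m i j) =
      (Finset.univ.filter fun j ↦ Cl m k j) := by
    intro i h
    ext j
    rw [Finset.mem_filter, Finset.mem_filter]
    constructor
    · rintro ⟨h1, h2⟩
      exact ⟨h1, fun n hn ↦ (h2 n hn).trans (h n hn).symm⟩
    · rintro ⟨h1, h2⟩
      exact ⟨h1, fun n hn ↦ (h2 n hn).trans (h n hn)⟩
  have h1 : ∀ i, ((((Finset.univ.filter fun j ↦ Cl m i j).card : E))⁻¹ • P m i v) k =
      if Cl m k i then (((Finset.univ.filter fun j ↦ Cl m k j).card : E))⁻¹ * v k else 0 := by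
    intro i
    rw [Pi.smul_apply, smul_eq_mul]
    by_cases h : Cl m i k
    · have h' : Cl m k i := fun n hn ↦ (h n hn).symm
      rw [if_pos h', P_pos m i v k h, hsymm i h]
    · have h' : ¬ Cl m k i := fun h2 ↦ h fun n hn ↦ (h2 n hn).symm
      rw [if_neg h', P_neg m i v k h, mul_zero]
  rw [Finset.sum_congr rfl fun i _ ↦ h1 i, ← Finset.sum_filter, Finset.sum_const, nsmul_eq_mul,
    ← mul_assoc]
  have h2 : (((Finset.univ.filter fun j ↦ Cl m k j).card : ℕ) : E) ≠ 0 := by
    rw [Nat.cast_ne_zero, ← Nat.pos_iff_ne_zero, Finset.card_pos]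
    exact ⟨k, Finset.mem_filter.mpr ⟨Finset.mem_univ k, fun _ _ ↦ rfl⟩⟩
  rw [mul_inv_cancel₀ h2, one_mul]

/-- An involution of trace zero halves the space. -/
theorem half {E W : Type} [Field E] [CharZero E] [AddCommGroup W] [Module E W]
    [FiniteDimensional E W] (C : W →ₗ[E] W) (hC : ∀ v, C (C v) = v)
    (h0 : LinearMap.trace E W C = 0) (S : Submodule E W) (hS : ∀ v, v ∈ S ↔ C v = v) :
    finrank E W = 2 * finrank E S := by
  have h2 : (2 : E) ≠ 0 := two_ne_zero
  let T : W →ₗ[E] W := (2 : E)⁻¹ • (LinearMap.id + C)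
  have hT : ∀ v, T v = (2 : E)⁻¹ • (v + C v) := fun v ↦ rfl
  have hproj : LinearMap.IsProj S T := by
    constructor
    · intro v
      rw [hS, hT, map_smul, map_add, hC, add_comm]
    · intro v hv
      rw [hT, (hS v).mp hv, ← two_smul E, smul_smul, inv_mul_cancel₀ h2, one_smul]
  have htrT := hproj.trace
  have e1 : LinearMap.trace E W T = (2 : E)⁻¹ * (finrank E W : E) := by
    change LinearMap.trace E W ((2 : E)⁻¹ • (LinearMap.id + C)) = _
    rw [map_smul, map_add, h0, add_zero, LinearMap.trace_id, smul_eq_mul]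
  rw [e1] at htrT
  have h3 : (finrank E W : E) = ((2 * finrank E S : ℕ) : E) := by
    rw [Nat.cast_mul, ← htrT, Nat.cast_ofNat, mul_inv_cancel_left₀ h2]
  exact Nat.cast_injective h3

/-- The plus part is half of a stable subspace of a monomial representation. -/
theorem t : Pool.Agent.Helper16.SD.N_HALF := by
  intro E I Γ _ _ _ _ _ _ m hm c hc hcomm hex V hV
  classical
  have hcinv : c⁻¹ = c := inv_eq_of_mul_eq_one_left hc
  let R : Γ → (V →ₗ[E] V) := fun γ ↦ (rho m γ).restrict (hV γ)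
  let Q : I → (V →ₗ[E] V) := fun i ↦ (P m i).restrict (fun v hv ↦ P_mem m V hV i v hv)
  have hR : ∀ γ (v : V), ((R γ v : V) : I → E) = rho m γ v := fun γ v ↦ rfl
  have hQ : ∀ i (v : V), ((Q i v : V) : I → E) = P m i v := fun i v ↦ rfl
  have hRmul : ∀ γ δ, R (γ * δ) = R γ ∘ₗ R δ := by
    intro γ δ
    refine LinearMap.ext fun v ↦ Subtype.ext ?_
    rw [LinearMap.comp_apply, hR, hR, hR, rho_mul hm]
  have hRone : R 1 = LinearMap.id := by
    refine LinearMap.ext fun v ↦ Subtype.ext ?_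
    rw [hR, LinearMap.id_apply, rho_one hm]
  -- the traces are zero
  have htr : ∀ i, LinearMap.trace E V (Q i ∘ₗ R c) = 0 := by
    intro i
    obtain ⟨g, hg, hne⟩ := hex i
    have hgi : g⁻¹ • i = i := by rw [inv_smul_eq_iff, hg]
    set z : Γ := g * (c * g⁻¹ * c⁻¹) with hz
    have hcc : ∀ k : I, c • c • k = k := fun k ↦ by rw [← mul_smul, hc, one_smul]
    have hzt : ∀ k : I, z • k = k := by
      intro k
      rw [hz, hcinv, mul_smul, mul_smul, mul_smul, ← hcomm, smul_inv_smul, hcc]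
    have h1 : (c * g⁻¹ * c⁻¹) • i = i := by
      rw [hcinv, mul_smul, mul_smul, ← hcomm, hcc, hgi]
    have h2 : m (c * g * c⁻¹) i * m (c * g⁻¹ * c⁻¹) i = 1 := by
      have h := hm (c * g * c⁻¹) (c * g⁻¹ * c⁻¹) i
      have h3 : c * g * c⁻¹ * (c * g⁻¹ * c⁻¹) = 1 := by group
      rw [h3, h1, coc_one hm] at h
      exact h.symm
    have h3 : m z i ≠ 1 := by
      intro h
      rw [hz, hm, h1] at h
      apply hne
      have h4 : m g i * m (c * g⁻¹ * c⁻¹) i = m (c * g * c⁻¹) i * m (c * g⁻¹ * c⁻¹) i := by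
        rw [h, h2]
      exact mul_right_cancel h4
    have e1 : R g ∘ₗ (Q i ∘ₗ R c) ∘ₗ R g⁻¹ = ((m z i : Eˣ) : E) • (Q i ∘ₗ R c) := by
      refine LinearMap.ext fun v ↦ Subtype.ext ?_
      rw [LinearMap.comp_apply, LinearMap.comp_apply, LinearMap.comp_apply, LinearMap.smul_apply,
        LinearMap.comp_apply, hR, hQ, hR, hR, Submodule.coe_smul, hQ, hR, ← P_rho hm g i hg,
        ← rho_mul hm, ← rho_mul hm, ← P_rho_triv z hzt, ← rho_mul hm]
      have e2 : g * c * g⁻¹ = z * c := by
        rw [hz]; group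
      rw [e2]
    have e3 : LinearMap.trace E V (R g ∘ₗ (Q i ∘ₗ R c) ∘ₗ R g⁻¹) =
        LinearMap.trace E V (Q i ∘ₗ R c) := by
      rw [LinearMap.trace_comp_comm', LinearMap.comp_assoc, ← hRmul, inv_mul_cancel, hRone,
        LinearMap.comp_id]
    rw [e1, map_smul, smul_eq_mul] at e3
    have h5 : (((m z i : Eˣ) : E) - 1) * LinearMap.trace E V (Q i ∘ₗ R c) = 0 := by
      rw [sub_mul, one_mul, e3, sub_self]
    rcases mul_eq_zero.mp h5 with h | h
    · exact absurd (Units.ext (sub_eq_zero.mp h)) h3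
    · exact h
  -- the trace of ρ(c)
  have htc : LinearMap.trace E V (R c) = 0 := by
    have e1 : R c = ∑ i, (((Finset.univ.filter fun j ↦ Cl m i j).card : E))⁻¹ • (Q i ∘ₗ R c) := by
      refine LinearMap.ext fun v ↦ Subtype.ext ?_
      rw [LinearMap.sum_apply, hR, Submodule.coe_sum]
      rw [← sum_P m (rho m c (v : I → E))]
      refine Finset.sum_congr rfl fun i _ ↦ ?_
      rfl
    rw [e1, map_sum]
    refine Finset.sum_eq_zero fun i _ ↦ ?_
    rw [map_smul, htr, smul_zero]
  have hp : ∀ v : I → E, v ∈ fixL (rho m c) ↔ rho m c v = v := by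
    intro v
    change v ∈ LinearMap.ker (rho m c - LinearMap.id) ↔ _
    rw [LinearMap.mem_ker, LinearMap.sub_apply, LinearMap.id_apply, sub_eq_zero]
  have h1 := half (W := V) (R c) (fun v ↦ by
    refine Subtype.ext ?_
    rw [hR, hR, ← rho_mul hm, hc, rho_one hm]) htc (Submodule.comap V.subtype (fixL (rho m c)))
    (fun v ↦ by
      rw [Submodule.mem_comap, hp, Subtype.ext_iff, hR]
      rfl)
  have h3 : Submodule.map V.subtype (Submodule.comap V.subtype (fixL (rho m c))) =
      V ⊓ fixL (rho m c) := Submodule.map_comap_subtype _ _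
  rw [← h3, Submodule.finrank_map_subtype_eq]
  exact h1

end Pool.Agent.Helper24.SD.N_HALF
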