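import Pool.Agent.Helper71.SD.Goals

/-! PACKET HL5 of the disproof of `MP_dcced1_gt`. -/

namespace Pool.Agent.Helper71.SD.HL5

open Pool.Agent.Helper71.AHtpy SimpleGraph

variable {V : Type} {G : SimpleGraph V} {eta : V → ℕ} {F : V → Fin 3 → ℤ} {n j : ℕ}
  {θ : Finset E → Quotient (suspSetoid V n)}

theorem lev_adj (gm : IsGraphMap (cube E) (Susp G n) θ) (i : E) (S : Finset E) :
    lev (θ (tog i S)) ≤ lev (θ S) + 1 := by
  have h := gm S (tog i S) ⟨i, rfl⟩
  rw [← pt_lab_lev (θ S), ← pt_lab_lev (θ (tog i S)), near_pt_iff (lev_le _) (lev_le _)] at h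
  exact h.1.2

theorem tog_of_notMem {i : E} {S : Finset E} (h : i ∉ S) : tog i S = insert i S := by
  ext x
  rw [mem_tog, Finset.mem_insert]
  constructor
  · rintro (⟨h1, _⟩ | ⟨h1, _⟩)
    · exact Or.inr h1
    · exact Or.inl h1
  · rintro (h1 | h1)
    · exact Or.inr ⟨h1, h1 ▸ h⟩
    · exact Or.inl ⟨h1, fun h2 => h (h2 ▸ h1)⟩

theorem lev_path (gm : IsGraphMap (cube E) (Susp G n) θ) (S : Finset E) (T : Finset E)
    (hT : Disjoint T S) : lev (θ (S ∪ T)) ≤ lev (θ S) + T.card := by
  induction T using Finset.induction_on with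
  | empty => simp
  | insert i T hi ih =>
    rw [Finset.disjoint_insert_left] at hT
    have h1 : S ∪ insert i T = tog i (S ∪ T) := by
      rw [tog_of_notMem (by
        rw [Finset.mem_union]
        rintro (h | h)
        · exact hT.1 h
        · exact hi h), Finset.union_insert]
    have h2 := lev_adj gm i (S ∪ T)
    have h3 := ih hT.2
    rw [h1, Finset.card_insert_of_notMem hi]
    omega

theorem hl5 : S_XC1 → S_HL2 → S_HL3 → S_HL5 := by
  intro hX h2 h3 V G eta F n j θ H hj S hS hlev
  obtain ⟨x1, x2, x3, x4, x5, x6, x7, x8⟩ := hX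
  classical
  -- a maximal bad set
  obtain ⟨u, hu, hmax⟩ := Finset.exists_max_image
    (Finset.univ.filter fun S : Finset E => (∀ a, cnt a S ≤ 4) ∧ lev (θ S) = 0) Finset.card
    ⟨S, by simpa using ⟨hS, hlev⟩⟩
  simp only [Finset.mem_filter, Finset.mem_univ, true_and] at hu hmax
  have hu1 : ∀ a, cnt a u ≤ 1 := by
    intro a
    have h4 := (h2 V G eta F n j θ H u (fun b => (hu.1 b).trans (by norm_num)) a).1
    rw [hu.2] at h4
    have := hu.1 a
    omega
  -- one more element
  obtain ⟨U, hU1, hU2, hU3⟩ := x5 0 u 1 (by have := hu1 0; omega)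
  obtain ⟨e, rfl⟩ := Finset.card_eq_one.mp hU1
  have he : e ∉ u := Finset.disjoint_singleton_left.mp hU2
  set W := tog e u with hW
  have hWi : W = insert e u := tog_of_notMem he
  have hWc : W.card = u.card + 1 := (x8 e u).2 he
  have hW2 : ∀ a, cnt a W ≤ 2 := by
    intro a
    have h4 := hu1 a
    by_cases hb : blk e = a
    · have h5 := (x3 a e u).2.2 hb he
      rw [← hW] at h5
      omega
    · have h5 := (x3 a e u).1 hb
      rw [← hW] at h5
      omega
  have hW0 : lev (θ W) ≠ 0 := by
    intro h4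
    have := hmax W ⟨fun a => (hW2 a).trans (by norm_num), h4⟩
    omega
  have hW1 : lev (θ W) = 1 := by
    have h5 := lev_adj H.gm e u
    rw [hu.2, ← hW] at h5
    omega
  have hj' := H.hj'
  have hn := H.hn
  -- HL3 applies
  have key : ∀ a, |(lev (θ W) : ℤ) - j| +
      ∑ b, |F (lab (θ W)) b - (if b = a then 3 else min 3 (cnt b W : ℤ))| ≤
      5 - (cnt a W : ℤ) := by
    intro a
    refine (h3 V G eta F n j θ H W (fun b => (hW2 b).trans (by norm_num)) a ?_).2
    intro S' hS' hnew hc5
    have hother : ∀ b, b ≠ a → cnt b S' ≤ 2 := by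
      intro b hb
      have h4 : S'.filter (fun i => blk i = b) = W.filter (fun i => blk i = b) := by
        ext i
        simp only [Finset.mem_filter]
        constructor
        · rintro ⟨h5, h6⟩
          refine ⟨?_, h6⟩
          by_contra h7
          exact hb (h6 ▸ hnew i h5 h7)
        · rintro ⟨h5, h6⟩
          exact ⟨hS' h5, h6⟩
      have h5 : cnt b S' = cnt b W := by unfold cnt; rw [h4]
      rw [h5]; exact hW2 b
    by_cases h5 : cnt a S' = 5
    · obtain ⟨v, hv, _⟩ := H.forced S' (fun b => by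
        by_cases hb : b = a
        · rw [hb]; omega
        · have := hother b hb; omega) ⟨a, h5⟩
      rw [hv, lev_pt]
      omega
    · have h4 : ∀ b, cnt b S' ≤ 4 := fun b => by
        by_cases hb : b = a
        · rw [hb]; omega
        · have := hother b hb; omega
      have h6 : lev (θ S') ≠ 0 := by
        intro h7
        have h8 := hmax S' ⟨h4, h7⟩
        have h9 := Finset.card_le_card hS'
        omega
      refine ⟨Nat.pos_of_ne_zero h6, ?_⟩
      -- path from W
      have h7 := lev_path H.gm W (S' \ W) Finset.sdiff_disjoint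
      rw [Finset.union_sdiff_of_subset hS', hW1] at h7
      have h8 : (S' \ W).card + cnt a W ≤ cnt a S' := by
        have h9 : (S' \ W) ∪ W.filter (fun i => blk i = a) ⊆ S'.filter (fun i => blk i = a) := by
          intro i hi
          simp only [Finset.mem_union, Finset.mem_sdiff, Finset.mem_filter] at hi ⊢
          rcases hi with ⟨h10, h11⟩ | ⟨h10, h11⟩
          · exact ⟨h10, hnew i h10 h11⟩
          · exact ⟨hS' h10, h11⟩
        have h10 : Disjoint (S' \ W) (W.filter (fun i => blk i = a)) :=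
          Finset.disjoint_of_subset_right (Finset.filter_subset _ _) Finset.sdiff_disjoint
        have h11 := Finset.card_le_card h9
        rw [Finset.card_union_of_disjoint h10] at h11
        exact h11
      have h9 := (h2 V G eta F n j θ H S' (fun b => (h4 b).trans (by norm_num)) a).2
      have h10 := lev_le (θ S')
      have := h4 a
      omega
  have k0 := key 0
  have k1 := key 1
  rw [Fin.sum_univ_three] at k0 k1
  have c0 := hW2 0
  have c1 := hW2 1
  rw [hW1] at k0 k1
  simp only [Fin.isValue, if_true, zero_ne_one, one_ne_zero, if_false,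
    show ((2 : Fin 3) = 0) = False from by simp, show ((2 : Fin 3) = 1) = False from by simp] at k0 k1
  have m0 : min (3 : ℤ) (cnt 0 W : ℤ) = cnt 0 W := min_eq_right (by exact_mod_cast (by omega))
  have m1 : min (3 : ℤ) (cnt 1 W : ℤ) = cnt 1 W := min_eq_right (by exact_mod_cast (by omega))
  rw [m0] at k1
  rw [m1] at k0
  have hjz : (4 : ℤ) ≤ j := by exact_mod_cast hj
  have e1 : (j : ℤ) - 1 ≤ |((1 : ℕ) : ℤ) - (j : ℤ)| := by
    rw [abs_sub_comm]; push_cast; exact le_abs_self _
  have t0 : (3 : ℤ) - cnt 0 W ≤ |F (lab (θ W)) 0 - 3| + |F (lab (θ W)) 0 - (cnt 0 W : ℤ)| := by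
    have a1 := neg_abs_le (F (lab (θ W)) 0 - 3)
    have a2 := le_abs_self (F (lab (θ W)) 0 - (cnt 0 W : ℤ))
    linarith
  have t1 : (3 : ℤ) - cnt 1 W ≤ |F (lab (θ W)) 1 - 3| + |F (lab (θ W)) 1 - (cnt 1 W : ℤ)| := by
    have a1 := neg_abs_le (F (lab (θ W)) 1 - 3)
    have a2 := le_abs_self (F (lab (θ W)) 1 - (cnt 1 W : ℤ))
    linarith
  have p0 := abs_nonneg (F (lab (θ W)) 2 - min 3 (cnt 2 W : ℤ))
  linarith

end Pool.Agent.Helper71.SD.HL5
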